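import Pool.Agent.Run7.h251.CN.Run
import Pool.Agent.Run7.h251.NI.Fam

/-!
# The length `(log N)^2` is the exact threshold for words in affine maps, up to `O(log N)`

Cramér's conjecture on this page says that a run of composite numbers which follows the prime `p` is shorter than `(log p)^2`. Here the
numbers `n + 1, ..., n + m` are replaced by `n + s 0, ..., n + s (m - 1)`, where `s j = c j + M (b j + 1 + y_j)`, the residues
`c j` modulo `M` and the windows `b j` are prescribed (for instance `c j = j`: the perturbed interval has the residues of an interval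
modulo the small primes), and `y_j` comes from `k` affine maps `h 0, ..., h (k - 1)` of a finite field `F` and a point `x` of `F`:
it is the projection to `F_p` of the image of `x` under the composition of the maps `h i` for which the binary digit `i` of `j` is one.
If `|F| = p^6` and `2^k ≤ log^3 N` these are only `p^(12 k + 6) = N^(O(log log N))` sequences.

* Above `(log N)^2 + K log N` every `n ≤ N` has a prime among the `n + s j`; below `(log N)^2 - K log N` the number of the `n ≤ N`
  without such a prime is `N exp(-m / log N)` up to a factor `K`; the longest run is `(log N)^2` up to `K log N`; all this for all but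
  a proportion `ε` of the sequences, `K = K(ε)`.
* At the length `(log N)^2 + A log N`, any `A`, in particular at Cramér's length `(log n)^2` itself, there are `N / 2 ≤ n ≤ N` such
  that all the `n + s j` are composite for a positive proportion of the sequences.

Method: the critical second moment of `MP_45ff98_nt.CriticalLength` (helper364; independent shifts), in the framework of shifts in
residue classes of helper931 (`MP_f9960f_nt.SmallPrimesDecide`), in which all weights are indicators of product sets up to constants,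
so that Nisan's generator (`MP_028722_nt.WordsInAffineMaps`) can be used.
-/

set_option autoImplicit false

namespace Pool.Agent.Results.MP_69be96_nt.ExactLength

open Finset

/-- The image of `x` under the composition of the affine maps `y ↦ (h i).1 y + (h i).2`, `i < k`, for which the binary digit `i` of `j`
is one (the map `h 0` is applied last). -/
def word {K : Type} [Field K] : (k : ℕ) → (Fin k → K × K) → K → ℕ → K
  | 0, _, x, _ => x
  | k + 1, h, x, j => if j % 2 = 1 then (h 0).1 * word k (fun i => h i.succ) x (j / 2) + (h 0).2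
      else word k (fun i => h i.succ) x (j / 2)

/-- The shift `s j = c j + M (b j + 1 + π (word of j))`, where `z = (x, h)` and the value of `π` is taken in `[0, p)`. -/
def shift {K : Type} [Field K] (M p k : ℕ) (π : K →+ ZMod p) (c b : ℕ → ℕ) (z : K × (Fin k → K × K)) (j : ℕ) : ℕ :=
  c j + M * (b j + 1 + (π (word k z.2 z.1 j)).val)

/-- The integers `1 ≤ n ≤ N` for which none of `n + s 0, ..., n + s (m - 1)` is a prime. -/
def composite (N m : ℕ) (s : ℕ → ℕ) : Finset ℕ := (Icc 1 N).filter fun n => ∀ j < m, ¬ (n + s j).Prime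

/-- Those of them with `N / 2 ≤ n`. -/
def lateComposite (N m : ℕ) (s : ℕ → ℕ) : Finset ℕ := (composite N m s).filter fun n => N ≤ 2 * n

open Classical in
/-- The largest `k ≤ m` for which there is an integer `1 ≤ n ≤ N` such that none of `n + s 0, ..., n + s (k - 1)` is a prime. -/
noncomputable def longest (N m : ℕ) (s : ℕ → ℕ) : ℕ :=
  Nat.findGreatest (fun k => ∃ n, 1 ≤ n ∧ n ≤ N ∧ ∀ j < k, ¬ (n + s j).Prime) m

/-- What the prime divisors of `M` leave of `c 0, ..., c (k - 1)`: the least number, over all `n`, of `j < k` with `n + c j`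
coprime to `M`. -/
noncomputable def rest (M : ℕ) (c : ℕ → ℕ) (k : ℕ) : ℕ :=
  sInf (Set.range fun n : ℕ => ((range k).filter fun j => (n + c j).Coprime M).card)

/-- The effective number `(M / φ(M)) * rest` of the residues `c 0, ..., c (k - 1)`. -/
noncomputable def size (M : ℕ) (c : ℕ → ℕ) (k : ℕ) : ℝ := (M : ℝ) / Nat.totient M * rest M c k

open Classical in
/-- For every `0 < ε ≤ 1` there is `w₀` such that the following holds for all `T`, `a`, for all `w ≥ w₀` and for every modulus `M`
whose prime divisors are exactly the primes up to `w`. The data are: primes `p` with `N / log^a N ≤ M p ≤ N`, finite fields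
`F` with at least `p^6` elements, surjective homomorphisms `π : F → F_p` of the additive groups, `k` with `4^k ≤ p`,
`m ≤ 2^k`, residues `c j` and windows `b j` with `c j + M b j ≤ T N`, the `|F|^(2 k + 1)` choices `z` of a point `x`
and of `k` affine maps of `F`, the shifts `s j = c j + M (b j + 1 + π (word of j))`, and `Λ = size M c`.

There is `K ≥ 1` such that for all large `N` and all these data:

**(1)** If `Λ m ≤ log^2 N - K log N`, then for all but a proportion `ε` of the choices the number of the `n ≤ N` such that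
`n + s 0, ..., n + s (m - 1)` are all composite (not prime) is at most `K N exp(-Λ m / log N)`, and already
`N exp(-Λ m / log N) / K` of them are `≥ N / 2`.

**(2)** If `Λ m ≥ log^2 N + K log N`, then for all but a proportion `ε` of the choices there is no such `n ≤ N`.

**(3)** If `Λ m ≥ log^2 N + K log N`, then for all but a proportion `ε` of the choices the largest `l ≤ m` such that
`n + s 0, ..., n + s (l - 1)` are all composite for some `n ≤ N` satisfies `|Λ l - log^2 N| ≤ K log N`.

**(4)** If `c j = j` for all `j < m` and `m ≥ log^2 N + K log N`, then for all but a proportion `ε` of the choices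
`|l - log^2 N| ≤ K log N`.

For every real `A` there is `γ > 0` such that for all large `N` and all these data:

**(5)** If `Λ m ≤ log^2 N + A log N`, or **(6)** if `c j = j` for all `j < m` and `m ≤ log^2 N + A log N`, then for at least a proportion
`γ` of the choices there is `N / 2 ≤ n ≤ N` such that `n + s 0, ..., n + s (m - 1)` are all composite. -/
theorem result (ε : ℝ) (hε : 0 < ε) (hε1 : ε ≤ 1) : ∃ w₀ : ℕ, ∀ T a w : ℕ, w₀ ≤ w → ∀ M : ℕ, 1 ≤ M →
    (∀ r : ℕ, r.Prime → (r ∣ M ↔ r ≤ w)) →
    (∃ K : ℝ, 1 ≤ K ∧ ∃ N₀ : ℕ, ∀ N : ℕ, N₀ ≤ N → ∀ (p : ℕ) [Fact p.Prime],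
      (N : ℝ) ≤ (M * p : ℕ) * Real.log N ^ a → M * p ≤ N →
      ∀ (F : Type) [Field F] [Fintype F], p ^ 6 ≤ Fintype.card F → ∀ π : F →+ ZMod p, Function.Surjective π →
      ∀ k m : ℕ, 4 ^ k ≤ p → m ≤ 2 ^ k → ∀ (c b : ℕ → ℕ), (∀ j, c j + M * b j ≤ T * N) →
      (size M c m ≤ Real.log N ^ 2 - K * Real.log N →
        ((univ.filter fun z : F × (Fin k → F × F) =>
          ¬ (N * Real.exp (-(size M c m / Real.log N)) / K ≤ (lateComposite N m (shift M p k π c b z)).card ∧
          ((composite N m (shift M p k π c b z)).card : ℝ) ≤ K * (N * Real.exp (-(size M c m / Real.log N))))).card : ℝ) ≤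
            ε * (Fintype.card F : ℝ) ^ (2 * k + 1)) ∧
      (Real.log N ^ 2 + K * Real.log N ≤ size M c m →
        ((univ.filter fun z : F × (Fin k → F × F) => (composite N m (shift M p k π c b z)).Nonempty).card : ℝ) ≤
          ε * (Fintype.card F : ℝ) ^ (2 * k + 1)) ∧
      (Real.log N ^ 2 + K * Real.log N ≤ size M c m →
        ((univ.filter fun z : F × (Fin k → F × F) => K * Real.log N <
          |size M c (longest N m (shift M p k π c b z)) - Real.log N ^ 2|).card : ℝ) ≤ ε * (Fintype.card F : ℝ) ^ (2 * k + 1)) ∧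
      ((∀ j < m, c j = j) → Real.log N ^ 2 + K * Real.log N ≤ m →
        ((univ.filter fun z : F × (Fin k → F × F) => K * Real.log N <
          |(longest N m (shift M p k π c b z) : ℝ) - Real.log N ^ 2|).card : ℝ) ≤ ε * (Fintype.card F : ℝ) ^ (2 * k + 1))) ∧
    (∀ A : ℝ, ∃ γ : ℝ, 0 < γ ∧ ∃ N₀ : ℕ, ∀ N : ℕ, N₀ ≤ N → ∀ (p : ℕ) [Fact p.Prime],
      (N : ℝ) ≤ (M * p : ℕ) * Real.log N ^ a → M * p ≤ N →
      ∀ (F : Type) [Field F] [Fintype F], p ^ 6 ≤ Fintype.card F → ∀ π : F →+ ZMod p, Function.Surjective π →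
      ∀ k m : ℕ, 4 ^ k ≤ p → m ≤ 2 ^ k → ∀ (c b : ℕ → ℕ), (∀ j, c j + M * b j ≤ T * N) →
      (size M c m ≤ Real.log N ^ 2 + A * Real.log N ∨ ((∀ j < m, c j = j) ∧ (m : ℝ) ≤ Real.log N ^ 2 + A * Real.log N) →
        γ * (Fintype.card F : ℝ) ^ (2 * k + 1) ≤
          ((univ.filter fun z : F × (Fin k → F × F) => (lateComposite N m (shift M p k π c b z)).Nonempty).card : ℝ))) := by
  obtain ⟨w₁, h₁⟩ := Run7.h251.CN.count ε hε hε1
  obtain ⟨w₂, h₂⟩ := Run7.h251.CN.law ε hε hε1
  obtain ⟨w₃, h₃⟩ := Run7.h251.CN.law_i ε hε hε1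
  refine ⟨max w₁ (max w₂ w₃), fun T a w hw M hM1 hM => ?_⟩
  have hsize : ∀ (c : ℕ → ℕ) (k : ℕ), size M c k = Pool.Agent.Run7.h931.RS.Pw w * Pool.Agent.Run7.h931.RL.sur M c k := by
    intro c k
    have h1 := Pool.Agent.Run7.h931.RL.tot_P w M hM1 hM
    have h2 : (0 : ℝ) < Nat.totient M := by exact_mod_cast Nat.totient_pos.2 hM1
    have h3 : (M : ℝ) / Nat.totient M = Pool.Agent.Run7.h931.RS.Pw w := by
      rw [← h1]
      field_simp
    unfold size
    rw [h3]
    rfl
  have e0 : ∀ (F : Type) [Field F] (p k : ℕ) (π : F →+ ZMod p) (c b : ℕ → ℕ) (z : F × (Fin k → F × F)),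
      shift M p k π c b z = Run7.h251.NI.wseq M p k π c b z := by
    intro F _ p k π c b z
    have hword : ∀ (k : ℕ) (h : Fin k → F × F) (x : F) (j : ℕ), word k h x j = Run7.h251.NI.word k h x j := by
      intro k
      induction k with
      | zero => intro h x j; rfl
      | succ k ih =>
        intro h x j
        unfold word Run7.h251.NI.word
        rw [ih]
    funext j
    unfold shift Run7.h251.NI.wseq
    rw [hword]
  have e1 : ∀ (N m : ℕ) (s : ℕ → ℕ), composite N m s = Run7.h251.KW.surv N m s := by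
    intro N m s
    ext n
    unfold composite Run7.h251.KW.surv
    simp only [mem_filter]
  have e1' : ∀ (N m : ℕ) (s : ℕ → ℕ), lateComposite N m s = Run7.h251.CN.late N m s := by
    intro N m s
    unfold lateComposite Run7.h251.CN.late
    rw [e1]
  have e2 : ∀ (N m : ℕ) (s : ℕ → ℕ), longest N m s = Run7.h251.KW.runS N m s := by
    intro N m s
    unfold longest Run7.h251.KW.runS Run7.h251.KW.FreeS
    congr
  have hcard : ∀ (F : Type) [Field F] [Fintype F] (k : ℕ), (Fintype.card (F × (Fin k → F × F)) : ℝ) =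
      (Fintype.card F : ℝ) ^ (2 * k + 1) := by
    intro F _ _ k
    rw [Fintype.card_prod, Fintype.card_fun, Fintype.card_prod, Fintype.card_fin]
    push_cast
    ring
  have g4 := Pool.Agent.Run7.h931.RL.ev_pow (10 * a) ((M : ℝ) ^ 10) (by positivity)
  constructor
  · obtain ⟨K1, hK1, g1⟩ := h₁ T a w (by omega) M hM1 hM
    obtain ⟨K0, hK0, g0⟩ := Run7.h251.CN.above T a w M hM1 hM ε hε hε1
    obtain ⟨K2, hK2, g2⟩ := h₂ T a w (by omega) M hM1 hM
    obtain ⟨K3, hK3, g3⟩ := h₃ T a w (by omega) M hM1 hM
    obtain ⟨K, hK⟩ : ∃ K, K = K0 + K1 + K2 + K3 := ⟨_, rfl⟩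
    have g2' := g2 K (by linarith)
    have g3' := g3 K (by linarith)
    refine ⟨K, by linarith, ?_⟩
    obtain ⟨N₀, hN₀⟩ := Filter.eventually_atTop.1 (g0.and (g1.and (g2'.and (g3'.and (g4.and (Filter.eventually_ge_atTop 3))))))
    refine ⟨N₀, fun N hN p _ hq hqN F _ _ hF π hπ k m hk hm c b hb => ?_⟩
    obtain ⟨k0, k1, k2, k3, k4, k5⟩ := hN₀ N hN
    have hfool := Run7.h251.NI.word_fool M p k m hM1 π hπ c b hm
    have hδ := Run7.h251.CN.err M p a N k F hq k4 k5 hF hk
    have hδ0 : (0 : ℝ) ≤ (2 : ℝ) ^ k / Real.sqrt (Fintype.card F) := by positivity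
    have l0 := k0 (M * p) hq hqN _ m c (fun j => c j + M * b j) hδ hb _ _ hfool
    have l1 := k1 (M * p) hq hqN _ m c (fun j => c j + M * b j) hδ0 hδ hb _ _ hfool
    have l2 := k2 (M * p) hq hqN _ m c (fun j => c j + M * b j) hδ0 hδ hb _ _ hfool
    have l3 := k3 (M * p) hq hqN _ m c (fun j => c j + M * b j) hδ0 hδ hb _ _ hfool
    rw [hcard] at l0 l1 l2 l3
    have hN0 : (0 : ℝ) < N := by exact_mod_cast (by omega : 0 < N)
    have hL0 : 0 ≤ Real.log (N : ℝ) := Real.log_natCast_nonneg N
    have hle : ∀ X : ℝ, X ≤ K → X * Real.log N ≤ K * Real.log N := fun X hX => mul_le_mul_of_nonneg_right hX hL0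
    simp only [e0, e1, e1', e2, hsize]
    refine ⟨fun h => ?_, fun h => ?_, fun h => ?_, fun h1 h2 => ?_⟩
    · refine le_trans ?_ (l1 (by have := hle K1 (by linarith); linarith))
      have hE : 0 ≤ N * Real.exp (-(Pool.Agent.Run7.h931.RS.Pw w * Pool.Agent.Run7.h931.RL.sur M c m / Real.log N)) :=
        mul_nonneg hN0.le (Real.exp_pos _).le
      have hsub : (univ.filter fun z : F × (Fin k → F × F) =>
          ¬ (N * Real.exp (-(Pool.Agent.Run7.h931.RS.Pw w * Pool.Agent.Run7.h931.RL.sur M c m / Real.log N)) / K ≤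
            (Run7.h251.CN.late N m (Run7.h251.NI.wseq M p k π c b z)).card ∧
          ((Run7.h251.KW.surv N m (Run7.h251.NI.wseq M p k π c b z)).card : ℝ) ≤
            K * (N * Real.exp (-(Pool.Agent.Run7.h931.RS.Pw w * Pool.Agent.Run7.h931.RL.sur M c m / Real.log N))))) ⊆
          (univ.filter fun z : F × (Fin k → F × F) =>
          ¬ (N * Real.exp (-(Pool.Agent.Run7.h931.RS.Pw w * Pool.Agent.Run7.h931.RL.sur M c m / Real.log N)) / K1 ≤
            (Run7.h251.CN.late N m (Run7.h251.NI.wseq M p k π c b z)).card ∧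
          ((Run7.h251.KW.surv N m (Run7.h251.NI.wseq M p k π c b z)).card : ℝ) ≤
            K1 * (N * Real.exp (-(Pool.Agent.Run7.h931.RS.Pw w * Pool.Agent.Run7.h931.RL.sur M c m / Real.log N))))) := by
        intro z hz
        rw [mem_filter] at hz ⊢
        refine ⟨hz.1, fun hh => hz.2 ⟨le_trans ?_ hh.1, le_trans hh.2 ?_⟩⟩
        · exact div_le_div_of_nonneg_left hE (by linarith) (by linarith)
        · exact mul_le_mul_of_nonneg_right (by linarith) hE
      exact_mod_cast card_le_card hsub
    · exact l0 (by have := hle K0 (by linarith); linarith)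
    · exact l2 h
    · exact l3 h1 h2
  · intro A
    obtain ⟨γ, hγ, g1⟩ := Run7.h251.CN.positive T a w M hM1 hM (A + 1)
    refine ⟨γ, hγ, ?_⟩
    obtain ⟨N₀, hN₀⟩ := Filter.eventually_atTop.1 (g1.and (g4.and ((Filter.eventually_ge_atTop 3).and
      (Pool.Agent.Run7.h931.RS.ev_log M))))
    refine ⟨N₀, fun N hN p _ hq hqN F _ _ hF π hπ k m hk hm c b hb hcase => ?_⟩
    obtain ⟨k1, k4, k5, k6⟩ := hN₀ N hN
    have hfool := Run7.h251.NI.word_fool M p k m hM1 π hπ c b hm
    have hδ := Run7.h251.CN.err M p a N k F hq k4 k5 hF hk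
    have hδ0 : (0 : ℝ) ≤ (2 : ℝ) ^ k / Real.sqrt (Fintype.card F) := by positivity
    have l1 := k1 (M * p) hq hqN _ m c (fun j => c j + M * b j) hδ0 hδ hb _ _ hfool
    rw [hcard] at l1
    have hL0 : 0 ≤ Real.log (N : ℝ) := Real.log_natCast_nonneg N
    simp only [e0, e1'] at hcase ⊢
    apply l1
    rcases hcase with h | ⟨h1, h2⟩
    · rw [hsize] at h
      linarith
    · have h3 := (abs_le.1 (Pool.Agent.Run7.h931.RL.sur_id w M hM1 hM c m h1)).2
      linarith

end Pool.Agent.Results.MP_69be96_nt.ExactLength
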