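import Pool.Agent.Run7.h294.D3

set_option autoImplicit false

/-!
# Many linear forms without prime values

Let `T` be an ARBITRARY finite set of linear forms `q n + a` with `1 ≤ q ≤ X ^ K`, `|a| ≤ X ^ K` and
`∑ q / φ(q) ≤ μ log X`, `0 ≤ μ ≤ c log log X`. Then for at least `X exp (-(e ^ μ log log X) ^ C)` integers `n ≤ X` NONE
of the values `|q n + a|` is a prime.

Examples: `q = 1`, an arbitrary set of `μ log X` integers `a` (for an interval of integers this is a long prime-free
interval `n + [0, μ log X]`); the numbers `j n + a`, `|a| ≤ μ_j log X`, `j ≤ J`, that is simultaneous prime-free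
intervals around `n, 2 n, …, J n`; prime-free pieces `n + a, n + a + q, …` of arithmetic progressions. The heuristic
number of such `n` is about `X e ^ (-μ)`: the value `q n + a` is prime with probability `q / (φ(q) log X)`.

Method. Let `W` be the product of the primes up to `(log X) ^ (1/10)`. By an average over the classes (Markov's
inequality) in at least half of the classes `b` modulo `W` at most `C μ log X / log log X` forms are coprime to `W`. In
such a class the forms `q (n + ω) + a`, `ω` in a large set of multiples of `W`, are covered by the square weights of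
`MP_f9960f_nt.UniformGapTail` (record sieve `Pool.Agent.H256R2.SC` of the starting library): the form is replaced by a
virtual shift, an integer congruent to `a / q` modulo all sieving primes; the primes dividing a coefficient or a
determinant `a q' - a' q` are excluded, and the set of the `ω` is a progression whose difference avoids all
coincidences `q q' (ω - ω') + a q' - a' q = 0`. For almost all `n` of the class some `ω` is covered completely.
-/

namespace Pool.Agent.Results.MP_69be96_nt.ManyLinearForms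

/-- **Arbitrary families of linear forms, none of which takes a prime value.** -/
theorem result : ∀ K : ℕ, ∃ c C : ℝ, 0 < c ∧ 0 < C ∧ ∃ X₀ : ℕ, ∀ X : ℕ, X₀ ≤ X →
    ∀ μ : ℝ, 0 ≤ μ → μ ≤ c * Real.log (Real.log X) →
    ∀ T : Finset (ℕ × ℤ),
      (∀ t ∈ T, 1 ≤ t.1 ∧ (t.1 : ℝ) ≤ (X : ℝ) ^ K ∧ |(t.2 : ℝ)| ≤ (X : ℝ) ^ K) →
      ∑ t ∈ T, (t.1 : ℝ) / t.1.totient ≤ μ * Real.log X →
      X * Real.exp (-(Real.exp μ * Real.log (Real.log X)) ^ C) ≤
        ({n : ℕ | 1 ≤ n ∧ n ≤ X ∧ ∀ t ∈ T, ¬ ((t.1 : ℤ) * n + t.2).natAbs.Prime}.ncard : ℝ) := by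
  intro K
  obtain ⟨c, C, hc, hC, X₀, h⟩ := Run7.h294.D.main_d (K + 1) (by omega)
  refine ⟨c, C, hc, hC, max X₀ 1, ?_⟩
  intro X hX μ h1 h2 T hT hs
  have hX1 : (1:ℝ) ≤ X := by exact_mod_cast (le_max_right _ _).trans hX
  have hXK : (X : ℝ) ^ K ≤ (X : ℝ) ^ (K + 1) := pow_le_pow_right₀ hX1 (by omega)
  refine (h X ((le_max_left _ _).trans hX) μ h1 h2 T (fun t ht =>
    ⟨(hT t ht).1, (hT t ht).2.1.trans hXK, (hT t ht).2.2.trans hXK⟩) hs).trans ?_
  classical
  set S := (Finset.Ioc (0 : ℤ) X).filter (fun n : ℤ => ∀ t ∈ T,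
        ¬ ((t.1 : ℤ) * n + t.2).natAbs.Prime) with hS
  have hfin : {n : ℕ | 1 ≤ n ∧ n ≤ X ∧ ∀ t ∈ T,
      ¬ ((t.1 : ℤ) * n + t.2).natAbs.Prime}.Finite :=
    (Set.finite_Iic X).subset fun n hn => hn.2.1
  have hinj : (S.image Int.toNat).card = S.card := by
    apply Finset.card_image_of_injOn
    intro x hx y hy hxy
    rw [Finset.mem_coe, hS, Finset.mem_filter, Finset.mem_Ioc] at hx hy
    have h3 : x.toNat = y.toNat := hxy
    omega
  have hsub : ((S.image Int.toNat : Finset ℕ) : Set ℕ) ⊆ {n : ℕ | 1 ≤ n ∧ n ≤ X ∧ ∀ t ∈ T,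
      ¬ ((t.1 : ℤ) * n + t.2).natAbs.Prime} := by
    intro n hn
    rw [Finset.mem_coe, Finset.mem_image] at hn
    obtain ⟨x, hx, rfl⟩ := hn
    rw [hS, Finset.mem_filter, Finset.mem_Ioc] at hx
    have h3 : ((x.toNat : ℕ) : ℤ) = x := Int.toNat_of_nonneg (by omega)
    refine ⟨by omega, by omega, fun t ht => ?_⟩
    rw [h3]
    exact hx.2 t ht
  have h4 := Set.ncard_le_ncard hsub hfin
  rw [Set.ncard_coe_finset, hinj] at h4
  exact_mod_cast h4

end Pool.Agent.Results.MP_69be96_nt.ManyLinearForms
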