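import Pool.Agent.Run7.h914.Crv

set_option autoImplicit false

/-!
# Record prime gaps at the points of plane curves modulo primes

Write `f(x) = log x (log₂ x)² log₄ x / (log₃ x)²` for the record size of the prime-free intervals.  An
integer `n` is a centre modulo `p` if every integer within `κ f(p)` of `n` has a prime factor `≤ p ^ δ`;
so a centre `n` with `|n| > p ^ δ + κ f(p)` is in the middle of a record prime gap.

Let `p` be a large prime and let `F(x, y) = 0` be ANY absolutely irreducible plane curve over the field with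
`p` elements, not a line, of degree at most `p ^ (δ / 50)`.  Every box with sides between `p ^ δ` and `p` and of
area `V ≥ p ^ (3 / 2 + δ)` contains at least `p ^ (-δ) V / p` integer points `(x, y)` with `F(x, y) ≡ 0` modulo
`p` such that `x`, `y`, `x y` and all the other monomials `x ^ a y ^ b` with coprime exponents `a, b ≤ E` are
centres modulo `p`.  (A box of area `V` contains about `V / p` points of the curve.)

Proof.  The sums `∑ e_p(h x + l y)` over the points of the curve are `≤ 12 d ^ 4 √p` in absolute value for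
`(h, l) ≠ 0` (`Pool.Agent.Run7.h914.GFin`, `exp_curve`): the `L`-functions are polynomials by Riemann's theorem
and the reciprocity of the traces, a generic linear change makes the curve monic in `y`, and the Artin-Schreier
covers `w ^ p - w = h x + l y` are absolutely irreducible, so that their numbers of points are
`p ^ m + O(p ^ (m / 2))` (library `R410.PW`).  The families of vectors with small exponential sums are treated
by the joint covering sieve of the library `N39.RG`.
-/

namespace Pool.Agent.Results.MP_69be96_nt.PointsOfPlaneCurves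

open Polynomial

/-- The record scale `f(x) = log x (log₂ x)² log₄ x / (log₃ x)²` (iterated natural logarithms). -/
noncomputable def f (x : ℝ) : ℝ :=
  Real.log x * (Real.log (Real.log x)) ^ 2 * Real.log (Real.log (Real.log (Real.log x))) /
    (Real.log (Real.log (Real.log x))) ^ 2

/-- Every integer within `κ f(p)` of `n` has a prime factor at most `p ^ δ`. -/
def Centre (κ δ : ℝ) (p : ℕ) (n : ℤ) : Prop :=
  ∀ m : ℤ, |(m : ℝ) - n| ≤ κ * f p → ∃ l : ℕ, l.Prime ∧ (l : ℝ) ≤ (p : ℝ) ^ δ ∧ (l : ℤ) ∣ m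

/-- The polynomial `F`, a polynomial in `y` whose coefficients are polynomials in `x`, is irreducible over
the algebraic closure of the field with `p` elements. -/
def AbsIrreducible (p : ℕ) [Fact p.Prime] (F : (ZMod p)[X][X]) : Prop :=
  Irreducible (F.map (mapRingHom (algebraMap (ZMod p) (AlgebraicClosure (ZMod p)))))

/-- The total degree of `F` is at most `d`. -/
def DegreeLE {p : ℕ} (F : (ZMod p)[X][X]) (d : ℕ) : Prop :=
  ∀ i j, d < i + j → (F.coeff i).coeff j = 0

/-- **Record prime gaps at the points of plane curves modulo primes.** -/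
theorem result (E : ℕ) (δ : ℝ) (hδ : 0 < δ) (hδ1 : δ ≤ 1) :
    ∃ κ : ℝ, 0 < κ ∧ ∃ p₀ : ℕ, ∀ (p : ℕ) [Fact p.Prime], p₀ ≤ p →
    ∀ (d : ℕ) (F : (ZMod p)[X][X]), (d : ℝ) ≤ (p : ℝ) ^ (δ / 50) → DegreeLE F d → ¬ DegreeLE F 1 →
      AbsIrreducible p F →
    ∀ (M₁ M₂ : ℤ) (L₁ L₂ : ℕ), (p : ℝ) ^ δ ≤ L₁ → L₁ ≤ p → (p : ℝ) ^ δ ≤ L₂ → L₂ ≤ p →
      (p : ℝ) ^ (3 / 2 + δ) ≤ L₁ * L₂ →
    (p : ℝ) ^ (-δ) * (L₁ * L₂ / p) ≤
      (Set.ncard {z : ℤ × ℤ | (M₁ < z.1 ∧ z.1 ≤ M₁ + L₁) ∧ (M₂ < z.2 ∧ z.2 ≤ M₂ + L₂) ∧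
        F.evalEval (z.1 : ZMod p) (z.2 : ZMod p) = 0 ∧
        ∀ a b : ℕ, a ≤ E → b ≤ E → Nat.Coprime a b → Centre κ δ p (z.1 ^ a * z.2 ^ b)} : ℝ) := by
  obtain ⟨κ, hκ, p₀, h⟩ := Run7.h914.rec_curve E δ hδ hδ1
  refine ⟨κ, hκ, p₀, ?_⟩
  intro p _ hp d F hd hF hF1 hirr M₁ M₂ L₁ L₂ h1 h2 h3 h4 hV
  have hex : ∃ i j, 2 ≤ i + j ∧ (F.coeff i).coeff j ≠ 0 := by
    by_contra hc
    push Not at hc
    exact hF1 fun i j hij => hc i j (by omega)
  have key := h p hp d F hd hF hex hirr (fun j => if j = 0 then M₁ else M₂) (fun j => if j = 0 then L₁ else L₂) (by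
    intro j
    by_cases hj : j = 0
    · simp only [hj, if_true]; exact ⟨h1, h2⟩
    · simp only [hj, if_false]; exact ⟨h3, h4⟩) (by simpa using hV)
  refine le_trans (le_of_eq (by simp)) (key.trans ?_)
  rw [Nat.cast_le]
  refine Set.ncard_le_ncard_of_injOn (fun z => (z 0, z 1)) ?_ ?_ ?_
  · rintro z ⟨hz1, hz2, hz3⟩
    have e0 := hz1 0
    have e1 := hz1 1
    simp only [if_true, Fin.one_eq_zero_iff, OfNat.ofNat_ne_one, if_false] at e0 e1
    refine ⟨e0, e1, hz2, ?_⟩
    intro a b ha hb hab m hm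
    refine hz3 (fun j => if j = 0 then a else b) ?_ ?_ m ?_
    · intro j
      by_cases hj : j = 0
      · simp only [hj, if_true]; exact ha
      · simp only [hj, if_false]; exact hb
    · simpa using hab
    · simp only [if_true, Fin.one_eq_zero_iff, OfNat.ofNat_ne_one, if_false]
      push_cast at hm
      exact hm
  · intro z _ z' _ hzz
    simp only [Prod.mk.injEq] at hzz
    funext j
    fin_cases j
    · exact hzz.1
    · exact hzz.2
  · refine (Set.finite_Icc (M₁, M₂) (M₁ + L₁, M₂ + L₂)).subset ?_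
    rintro z ⟨hz1, hz2, -⟩
    exact ⟨⟨hz1.1.le, hz2.1.le⟩, ⟨hz1.2, hz2.2⟩⟩

end Pool.Agent.Results.MP_69be96_nt.PointsOfPlaneCurves
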