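import Mathlib
import Pool.Agent.Run7.h609.MK.BeaC
import Pool.Agent.Run7.h777.MK.All
import Pool.Agent.Run7.h777.MK.Maj
import Pool.Agent.Run7.h788.MK.Min
import Pool.Agent.Run7.h794.MK.SiaAll

/-!
# The gaps between the primes of a Bohr set, or of an intersection of Beatty sequences

Cramér's problem asks for the length of an interval which contains a prime.  Here we ask this, for almost
all intervals, for the primes of thin arithmetic structure: the primes `p` for which
`(α₁ p, …, α_r p)` lies modulo one in a given box (a Bohr set of rank `r`), and the primes which belong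
to `r` given Beatty sequences `⌊β m + γ⌋` at the same time.

* (`result`, first part) Let `r`, `U` and `ε > 0` be given.  There are `D`, `C` such that for all large `N` and
  all `H` with `N^(1/3) (log N)^C ≤ H ≤ N / (log N)^C` the following holds for all real `α₁, …, α_r` with
  `‖h₁ α₁ + … + h_r α_r‖ > (log N)^C / H` for all integers `h_j`, `|h_j| ≤ D`, not all zero.  For all `n ≤ N`
  with at most `N / (log N)^U` exceptions, and for ALL boxes `[u, v)` of the torus at the same time,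
  `#{n < p ≤ n + H : α p ∈ [u, v) mod 1} = ((v₁ - u₁) ⋯ (v_r - u_r) + O(ε)) H / log N`.
* (`result`, second part) Under the same condition for `α_j = 1 / β_j`, `β_j ≥ 1`: for all but
  `N / (log N)^U` of the `n ≤ N` and for ALL real `γ₁, …, γ_r` at the same time, the number of the primes in
  `(n, n + H]` which are in all the Beatty sequences `⌊β_j m + γ_j⌋` is
  `(1 / (β₁ ⋯ β_r) + O(ε)) H / log N`.

For fixed `α` with `1, α₁, …, α_r` linearly independent over the rationals the condition holds for all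
large `N`; but `α` may also depend on `N` and be well approximable.  So almost all gaps, in the sense of
the measure, between the consecutive primes of such a set are at most `N^(1/3) (log N)^C`.

The main input is the theorem `S_ALL` (modules `Pool.Agent.Run7.*.MK` and `Pool.Agent.Run7.*.CR`): von
Mangoldt's function has the same Fourier coefficients, for ALL real frequencies, as a sieve model in the mean
square over all intervals of length at least `N^(1/3) (log N)^C`.
-/

set_option autoImplicit false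

namespace Pool.Agent.Results.MP_69be96_nt.PrimesInBohrSets

open Finset

/-- the primes `p` in `(n, n + H]` for which `α p` is modulo one in the box `[u, v)`; here the sides satisfy
`u j ≤ v j ≤ u j + 1` -/
noncomputable def inBohr {r : ℕ} (α u v : Fin r → ℝ) (n H : ℕ) : Finset ℕ :=
  (Ioc n (n + H)).filter fun p : ℕ => p.Prime ∧ ∀ j, Int.fract (α j * p - u j) < v j - u j

open scoped Classical in
/-- the primes `p` in `(n, n + H]` which are in all the Beatty sequences `⌊β_j m + γ_j⌋`, `m` an integer -/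
noncomputable def inBeatty {r : ℕ} (β γ : Fin r → ℝ) (n H : ℕ) : Finset ℕ :=
  (Ioc n (n + H)).filter fun p : ℕ => p.Prime ∧ ∀ j, ∃ m : ℤ, (p : ℤ) = ⌊β j * m + γ j⌋

/-- `‖h₁ α₁ + … + h_r α_r‖ > η` for all integers `h_j`, `|h_j| ≤ D`, not all zero -/
def Independent {r : ℕ} (α : Fin r → ℝ) (D : ℕ) (η : ℝ) : Prop :=
  ∀ h : Fin r → ℤ, h ≠ 0 → (∀ j, |h j| ≤ D) → ∀ b : ℤ, η < |∑ j, (h j : ℝ) * α j - b|

theorem result (r U : ℕ) (ε : ℝ) (hε : 0 < ε) :
    ∃ D C N₀ : ℕ, ∀ N : ℕ, N₀ ≤ N → ∀ H : ℕ,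
      (N : ℝ) ^ (1 / 3 : ℝ) * Real.log N ^ C ≤ H → (H : ℝ) * Real.log N ^ C ≤ N →
      (∀ α : Fin r → ℝ, Independent α D (Real.log N ^ C / H) →
        ∃ E : Finset ℕ, (E.card : ℝ) ≤ N / Real.log N ^ U ∧ ∀ n : ℕ, 1 ≤ n → n ≤ N → n ∉ E →
          ∀ u v : Fin r → ℝ, (∀ j, u j ≤ v j) → (∀ j, v j ≤ u j + 1) →
            |((inBohr α u v n H).card : ℝ) - (∏ j, (v j - u j)) * (H / Real.log N)| ≤ ε * (H / Real.log N)) ∧
      (∀ β : Fin r → ℝ, (∀ j, 1 ≤ β j) → Independent (fun j => 1 / β j) D (Real.log N ^ C / H) →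
        ∃ E : Finset ℕ, (E.card : ℝ) ≤ N / Real.log N ^ U ∧ ∀ n : ℕ, 1 ≤ n → n ≤ N → n ∉ E → ∀ γ : Fin r → ℝ,
          |((inBeatty β γ n H).card : ℝ) - (∏ j, β j)⁻¹ * (H / Real.log N)| ≤ ε * (H / Real.log N)) := by
  have hALL : Pool.Agent.Run7.h794.MK.S_ALL :=
    Pool.Agent.Run7.h777.MK.t_ALL Pool.Agent.Run7.h609.MK.t_LZA Pool.Agent.Run7.h788.MK.t_MIN
      (Pool.Agent.Run7.h777.MK.t_MAJ Pool.Agent.Run7.h794.MK.sia_all)
  obtain ⟨D1, C1, N1, h1⟩ := Pool.Agent.Run7.h609.MK.bohr hALL r U ε hε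
  obtain ⟨D2, C2, N2, h2⟩ := Pool.Agent.Run7.h609.MK.beatty hALL r U ε hε
  refine ⟨max D1 D2, max C1 C2, max (max N1 N2) 3, ?_⟩
  intro N hN H hH1 hH2
  have hN1 : N1 ≤ N := ((le_max_left _ _).trans (le_max_left _ _)).trans hN
  have hN2 : N2 ≤ N := ((le_max_right _ _).trans (le_max_left _ _)).trans hN
  have hN3 : 3 ≤ N := (le_max_right _ _).trans hN
  have hlog : 1 ≤ Real.log N := by
    have e1 : (3 : ℝ) ≤ N := by exact_mod_cast hN3
    rw [Real.le_log_iff_exp_le (by linarith)]
    have := Real.exp_one_lt_d9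
    linarith
  have hp : ∀ {a b : ℕ}, a ≤ b → Real.log N ^ a ≤ Real.log N ^ b := fun hab => pow_le_pow_right₀ hlog hab
  have hN0 : (0 : ℝ) ≤ (N : ℝ) ^ (1 / 3 : ℝ) := Real.rpow_nonneg (Nat.cast_nonneg _) _
  have hHa : ∀ {a : ℕ}, a ≤ max C1 C2 → (N : ℝ) ^ (1 / 3 : ℝ) * Real.log N ^ a ≤ H := fun ha =>
    (mul_le_mul_of_nonneg_left (hp ha) hN0).trans hH1
  have hHb : ∀ {a : ℕ}, a ≤ max C1 C2 → (H : ℝ) * Real.log N ^ a ≤ N := fun ha =>
    (mul_le_mul_of_nonneg_left (hp ha) (Nat.cast_nonneg _)).trans hH2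
  have hdiv : ∀ {a : ℕ}, a ≤ max C1 C2 → Real.log N ^ a / H ≤ Real.log N ^ max C1 C2 / H := fun ha =>
    div_le_div_of_nonneg_right (hp ha) (Nat.cast_nonneg _)
  constructor
  · intro α hα
    obtain ⟨E, hE1, hE2⟩ := h1 N hN1 H (hHa (le_max_left _ _)) (hHb (le_max_left _ _)) α
      (fun h hh hD b => lt_of_le_of_lt (hdiv (le_max_left _ _))
        (hα h hh (fun j => (hD j).trans (by exact_mod_cast le_max_left _ _)) b))
    exact ⟨E, hE1, hE2⟩
  · intro β hβ hα
    obtain ⟨E, hE1, hE2⟩ := h2 N hN2 H (hHa (le_max_right _ _)) (hHb (le_max_right _ _)) β hβ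
      (fun h hh hD b => by
        have h3 := lt_of_le_of_lt (hdiv (le_max_right _ _))
          (hα h hh (fun j => (hD j).trans (by exact_mod_cast le_max_right _ _)) b)
        have h4 : ∑ j, (h j : ℝ) / β j = ∑ j, (h j : ℝ) * (1 / β j) :=
          sum_congr rfl fun j _ => by rw [mul_one_div]
        rw [h4]
        exact h3)
    refine ⟨E, hE1, fun n hn1 hn2 hnE γ => ?_⟩
    have h5 := hE2 n hn1 hn2 hnE γ
    have h6 : (∏ j, β j)⁻¹ * (H / Real.log N) = H / Real.log N / ∏ j, β j := by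
      rw [div_eq_mul_inv _ (∏ j, β j), mul_comm]
    rw [h6]
    exact h5

end Pool.Agent.Results.MP_69be96_nt.PrimesInBohrSets
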